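import Pool.Agent.SZT.StmtsB

/-!
# SZT, row CPL: the completed algebraic closure of the completion at a place
-/

set_option autoImplicit false

namespace Pool.Agent.SZT.H74

open B

theorem norm_coe' {K : Type} [Field K] (v : AbsoluteValue K ℝ) (x : K) :
    ‖((WithAbs.equiv v).symm x : v.Completion)‖ = v x := by
  rw [UniformSpace.Completion.norm_coe]
  rfl

theorem ultra {K : Type} [Field K] (v : AbsoluteValue K ℝ) (hv : IsNonarchimedean v) :
    IsUltrametricDist v.Completion := by
  apply IsUltrametricDist.isUltrametricDist_of_forall_norm_natCast_le_one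
  intro n
  have h1 : ((n : ℕ) : v.Completion) = (((WithAbs.equiv v).symm (n : K) : WithAbs v) :
      v.Completion) := by
    rw [map_natCast]
    exact (map_natCast (UniformSpace.Completion.coeRingHom (α := WithAbs v)) n).symm
  rw [h1, norm_coe']
  exact IsNonarchimedean.apply_natCast_le_one hv

theorem cpl : CplStmt := by
  intro K _ v hv hx
  have hU : IsUltrametricDist v.Completion := ultra v hv
  obtain ⟨x, hx0, hx1⟩ := hx
  let iN : NontriviallyNormedField v.Completion :=
    { (inferInstance : NormedField v.Completion) with
      non_trivial := by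
        rcases lt_or_gt_of_ne hx1 with h | h
        · refine ⟨((WithAbs.equiv v).symm x⁻¹ : WithAbs v), ?_⟩
          rw [norm_coe', map_inv₀]
          exact (one_lt_inv₀ (v.pos hx0)).2 h
        · exact ⟨((WithAbs.equiv v).symm x : WithAbs v), by rw [norm_coe']; exact h⟩ }
  let Ω : Type := AlgebraicClosure v.Completion
  let nΩ : NormedField Ω := spectralNorm.normedField v.Completion Ω
  let aΩ : NormedAlgebra v.Completion Ω := spectralNorm.normedAlgebra v.Completion Ω
  let L : Type := UniformSpace.Completion Ω
  have hL : IsUltrametricDist L := IsUltrametricDist.of_normedAlgebra v.Completion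
  refine ⟨Ω, L, nΩ.toField, inferInstance, inferInstance, hL, inferInstance,
    (algebraMap v.Completion Ω).comp
      ((UniformSpace.Completion.coeRingHom (α := WithAbs v)).comp
        (WithAbs.equiv v).symm.toRingHom),
    UniformSpace.Completion.coeRingHom, ?_⟩
  intro y
  show ‖((algebraMap v.Completion Ω (((WithAbs.equiv v).symm y : WithAbs v) : v.Completion) :
    Ω) : L)‖ = v y
  rw [UniformSpace.Completion.norm_coe, norm_algebraMap', norm_coe']

end Pool.Agent.SZT.H74
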