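import Pool.Agent.SZT.StmtsB

/-!
# SZT, row SLO: the sum of the positions of the zeros is an integer
-/

set_option autoImplicit false

namespace Pool.Agent.SZT.H74

open B

variable {L : Type} [NormedField L]

theorem mu_pos {r : ℝ} (hr : 0 < r) (Z : Multiset L) (hZ : ∀ x ∈ Z, x ≠ 0) :
    0 < (Z.map fun x => r / ‖x‖).prod := by
  induction Z using Multiset.induction_on with
  | empty => simp
  | cons a Z ih =>
    rw [Multiset.map_cons, Multiset.prod_cons]
    have h1 : 0 < ‖a‖ := norm_pos_iff.2 (hZ a (Multiset.mem_cons_self a Z))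
    exact mul_pos (div_pos hr h1) (ih fun x hx => hZ x (Multiset.mem_cons_of_mem hx))

theorem log_mu {r : ℝ} (hr : 0 < r) (hr1 : r < 1) (Z : Multiset L) (hZ : ∀ x ∈ Z, x ≠ 0) :
    Real.log (Z.map fun x => r / ‖x‖).prod =
      ((Z.card : ℝ) - (Z.map (pos r)).sum) * Real.log r := by
  have hlog : Real.log r ≠ 0 := (Real.log_neg hr hr1).ne
  induction Z using Multiset.induction_on with
  | empty => simp
  | cons a Z ih =>
    have hZ' : ∀ x ∈ Z, x ≠ 0 := fun x hx => hZ x (Multiset.mem_cons_of_mem hx)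
    have h1 : 0 < ‖a‖ := norm_pos_iff.2 (hZ a (Multiset.mem_cons_self a Z))
    rw [Multiset.map_cons, Multiset.prod_cons, Multiset.map_cons, Multiset.sum_cons,
      Multiset.card_cons, Real.log_mul (div_pos hr h1).ne' (mu_pos hr Z hZ').ne', ih hZ',
      Real.log_div hr.ne' h1.ne', pos]
    push_cast
    field_simp
    ring

theorem prod_ne {Y : L} (Z : Multiset L) (hY : Y ≠ 0) (hYZ : Y ∉ Z) :
    (Z.map fun x => 1 - x / Y).prod ≠ 0 := by
  rw [Ne, Multiset.prod_eq_zero_iff]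
  intro h
  obtain ⟨x, hx, hx0⟩ := Multiset.mem_map.1 h
  apply hYZ
  have h1 : x / Y = 1 := (sub_eq_zero.1 hx0).symm
  rw [div_eq_one_iff_eq hY] at h1
  rwa [← h1]

theorem prod_id {η X : L} (hη : η ≠ 0) (hX : X ≠ 0) (Z : Multiset L) (hZ : ∀ x ∈ Z, x ≠ 0) :
    (Z.map fun x => ‖(X - x) * (1 - η / (X * x))‖).prod =
      (Z.map fun x => ‖η‖ / ‖x‖).prod * (‖(Z.map fun x => 1 - x / X).prod‖ *
        ‖(Z.map fun x => 1 - x / (η / X)).prod‖) := by
  induction Z using Multiset.induction_on with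
  | empty => simp
  | cons a Z ih =>
    have hZ' : ∀ x ∈ Z, x ≠ 0 := fun x hx => hZ x (Multiset.mem_cons_of_mem hx)
    have ha : a ≠ 0 := hZ a (Multiset.mem_cons_self a Z)
    simp only [Multiset.map_cons, Multiset.prod_cons]
    rw [ih hZ', norm_mul (1 - a / X), norm_mul (1 - a / (η / X))]
    have h1 : (X - a) * (1 - η / (X * a)) = - (η / a) * ((1 - a / X) * (1 - a / (η / X))) := by
      field_simp
      ring
    rw [h1, norm_mul, norm_neg, norm_div, norm_mul]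
    ring

theorem slo (sum : SumStmt) (str : StrStmt) (fac : FacStmt) : SloStmt := by
  intro L _ _ _ η c Z hη hη1 hc hZ hG hN
  classical
  have hr : 0 < ‖η‖ := norm_pos_iff.2 hη
  have hZ0 : ∀ x ∈ Z, x ≠ 0 := by
    intro x hx h0
    have h1 := (hZ x hx).1
    rw [h0, norm_zero] at h1
    linarith
  rcases Multiset.empty_or_exists_mem Z with hZe | ⟨x₀, hx₀⟩
  · exact ⟨0, by rw [hZe]; simp⟩
  obtain ⟨g, hg, hfac⟩ := fac L ‖η‖ 1 c Z hr hη1 one_pos le_rfl hc hZ hG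
  rw [one_mul] at hg
  obtain ⟨μ, hμ⟩ : ∃ μ : ℝ, μ = (Z.map fun x => ‖η‖ / ‖x‖).prod := ⟨_, rfl⟩
  rw [← hμ] at hg
  have hμ0 : 0 < μ := by rw [hμ]; exact mu_pos hr Z hZ0
  -- a good point
  have hx00 : x₀ ≠ 0 := hZ0 x₀ hx₀
  have hx01 := (hZ x₀ hx₀).2
  have hnorm : ∀ j : ℕ, ‖1 + x₀ ^ (j + 1)‖ = 1 := by
    intro j
    have h1 : ‖x₀ ^ (j + 1)‖ < ‖(1 : L)‖ := by
      rw [norm_pow, norm_one]
      exact pow_lt_one₀ (norm_nonneg _) hx01 (Nat.succ_ne_zero j)
    rw [IsUltrametricDist.norm_add_eq_max_of_norm_ne_norm h1.ne', max_eq_left h1.le, norm_one]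
  have hinj : Function.Injective (fun j : ℕ => x₀ * (1 + x₀ ^ (j + 1))) := by
    intro i j hij
    have h1 : x₀ ^ (i + 1) = x₀ ^ (j + 1) := by
      have h2 := mul_left_cancel₀ hx00 hij
      exact add_left_cancel h2
    have h3 : ‖x₀‖ ^ (i + 1) = ‖x₀‖ ^ (j + 1) := by rw [← norm_pow, ← norm_pow, h1]
    have h4 := (pow_right_injective₀ (norm_pos_iff.2 hx00) hx01.ne) h3
    omega
  obtain ⟨X, hXann, hX1, hX2⟩ : ∃ X : L, Ann ‖η‖ X ∧ X ∉ Z ∧ η / X ∉ Z := by
    obtain ⟨j, hj⟩ : ∃ j : ℕ, x₀ * (1 + x₀ ^ (j + 1)) ∉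
        (Z.toFinset ∪ Z.toFinset.image (fun z => η / z) : Finset L) := by
      by_contra hcon
      push Not at hcon
      have h1 : Set.range (fun j : ℕ => x₀ * (1 + x₀ ^ (j + 1))) ⊆
          ((Z.toFinset ∪ Z.toFinset.image (fun z => η / z) : Finset L) : Set L) := by
        rintro _ ⟨j, rfl⟩
        exact hcon j
      exact (Set.infinite_range_of_injective hinj) ((Finset.finite_toSet _).subset h1)
    rw [Finset.mem_union, not_or, Multiset.mem_toFinset] at hj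
    refine ⟨x₀ * (1 + x₀ ^ (j + 1)), ?_, hj.1, ?_⟩
    · unfold Ann
      rw [norm_mul, hnorm, mul_one]
      exact hZ x₀ hx₀
    · intro h
      apply hj.2
      rw [Finset.mem_image]
      refine ⟨_, Multiset.mem_toFinset.2 h, ?_⟩
      rw [div_div_cancel₀ hη]
  have hX0 : X ≠ 0 := by
    intro h0
    have h1 := hXann.1
    rw [h0, norm_zero] at h1
    linarith
  have hXn : 0 < ‖X‖ := norm_pos_iff.2 hX0
  have hY0 : η / X ≠ 0 := div_ne_zero hη hX0
  have hYann : Ann ‖η‖ (η / X) := by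
    unfold Ann
    rw [norm_div]
    constructor
    · rw [lt_div_iff₀ hXn]
      exact mul_lt_of_lt_one_right hr hXann.2
    · rw [div_lt_one hXn]
      exact hXann.1
  -- the product of the values of `g`
  have hprod : ‖val g X‖ * ‖val g (η / X)‖ = μ := by
    have h1 := hN X hXann
    rw [hfac X hXann, hfac (η / X) hYann, prod_id hη hX0 Z hZ0, norm_mul, norm_mul, ← hμ] at h1
    have h2 : ‖(Z.map fun x => 1 - x / X).prod‖ ≠ 0 := norm_ne_zero_iff.2 (prod_ne Z hX0 hX1)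
    have h3 : ‖(Z.map fun x => 1 - x / (η / X)).prod‖ ≠ 0 :=
      norm_ne_zero_iff.2 (prod_ne Z hY0 hX2)
    apply mul_left_cancel₀ (mul_ne_zero h2 h3)
    linear_combination h1
  obtain ⟨ht0, ht1, -, -, -, hle⟩ := sum L ‖η‖ μ g X hr hη1 hμ0 hg hXann
  obtain ⟨-, -, -, -, -, hle'⟩ := sum L ‖η‖ μ g (η / X) hr hη1 hμ0 hg hYann
  have hpos : pos ‖η‖ (η / X) = 1 - pos ‖η‖ X := by
    have hlog : Real.log ‖η‖ ≠ 0 := (Real.log_neg hr hη1).ne
    rw [pos, pos, norm_div, Real.log_div hr.ne' hXn.ne']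
    field_simp
  rw [hpos] at hle'
  have hk : ∃ k : ℤ, μ = ‖η‖ ^ k := by
    by_contra hcon
    push Not at hcon
    have h1 := str L ‖η‖ μ g X hr hη1 hμ0 hg hXann hcon
    have h2 : ‖val g X‖ * ‖val g (η / X)‖ < μ ^ pos ‖η‖ X * μ ^ (1 - pos ‖η‖ X) := by
      have h3 : 0 < ‖val g (η / X)‖ := by
        rcases (norm_nonneg (val g (η / X))).lt_or_eq with h | h
        · exact h
        · rw [← h, mul_zero] at hprod
          linarith
      calc ‖val g X‖ * ‖val g (η / X)‖ < μ ^ pos ‖η‖ X * ‖val g (η / X)‖ :=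
            mul_lt_mul_of_pos_right h1 h3
        _ ≤ μ ^ pos ‖η‖ X * μ ^ (1 - pos ‖η‖ X) :=
            mul_le_mul_of_nonneg_left hle' (Real.rpow_nonneg hμ0.le _)
    rw [hprod, ← Real.rpow_add hμ0] at h2
    have h4 : pos ‖η‖ X + (1 - pos ‖η‖ X) = 1 := by ring
    rw [h4, Real.rpow_one] at h2
    exact lt_irrefl _ h2
  obtain ⟨k, hk⟩ := hk
  refine ⟨(Z.card : ℤ) - k, ?_⟩
  have h1 := log_mu hr hη1 Z hZ0
  rw [← hμ, hk, Real.log_zpow] at h1
  have hlog : Real.log ‖η‖ ≠ 0 := (Real.log_neg hr hη1).ne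
  have h2 := mul_right_cancel₀ hlog h1
  push_cast
  linarith

end Pool.Agent.SZT.H74
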